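import Mathlib

/-!
# Minimal linear relations
-/

namespace Pool.Agent.Lib.MP_44a246_ntFM

/-- If the sum of the vectors `u i` is zero, but not the sum of those with `i ∈ P`, then there is a
linear relation with minimal support which involves an index in `P` and an index not in `P`. -/
theorem exists_circuit {κ V ι : Type*} [Field κ] [AddCommGroup V] [Module κ V] [Fintype ι]
    [DecidableEq ι] (u : ι → V) (P : Finset ι) (hu : ∑ i, u i = 0) (hP : ∑ i ∈ P, u i ≠ 0) :
    ∃ c : ι → κ, ∑ i, c i • u i = 0 ∧ (∃ i ∈ P, c i ≠ 0) ∧ (∃ i, i ∉ P ∧ c i ≠ 0) ∧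
      ∀ b : ι → κ, ∑ i, b i • u i = 0 → (∀ i, c i = 0 → b i = 0) → (∃ i, c i ≠ 0 ∧ b i = 0) →
        b = 0 := by
  classical
  have hex : ∃ n : ℕ, ∃ c : ι → κ, ∑ i, c i • u i = 0 ∧ ∑ i ∈ P, c i • u i ≠ 0 ∧
      (Finset.univ.filter fun i => c i ≠ 0).card = n :=
    ⟨_, fun _ => 1, by simpa using hu, by simpa using hP, rfl⟩
  obtain ⟨c, hc1, hc2, hc3⟩ := Nat.find_spec hex
  have hmin : ∀ c' : ι → κ, ∑ i, c' i • u i = 0 → ∑ i ∈ P, c' i • u i ≠ 0 →
      (Finset.univ.filter fun i => c i ≠ 0).card ≤ (Finset.univ.filter fun i => c' i ≠ 0).card := by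
    intro c' h1 h2
    rw [hc3]
    exact Nat.find_min' hex ⟨c', h1, h2, rfl⟩
  refine ⟨c, hc1, ?_, ?_, ?_⟩
  · by_contra hcon
    push Not at hcon
    exact hc2 (Finset.sum_eq_zero fun i hi => by rw [hcon i hi, zero_smul])
  · by_contra hcon
    push Not at hcon
    apply hc2
    rw [← hc1]
    refine Finset.sum_subset (Finset.subset_univ P) fun i _ hi => ?_
    rw [hcon i hi, zero_smul]
  · intro b hb hbc hbi
    obtain ⟨i₀, hi₀c, hi₀b⟩ := hbi
    -- the partial sum of `b` vanishes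
    have hlt : (Finset.univ.filter fun i => b i ≠ 0).card <
        (Finset.univ.filter fun i => c i ≠ 0).card := by
      refine Finset.card_lt_card ⟨fun i hi => ?_, fun hcon => ?_⟩
      · rw [Finset.mem_filter] at hi ⊢
        exact ⟨hi.1, fun h0 => hi.2 (hbc i h0)⟩
      · have h1 := hcon (Finset.mem_filter.2 ⟨Finset.mem_univ i₀, hi₀c⟩)
        exact (Finset.mem_filter.1 h1).2 hi₀b
    have hbP : ∑ i ∈ P, b i • u i = 0 := by
      by_contra hcon
      have := hmin b hb hcon
      omega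
    by_contra hb0
    obtain ⟨t, ht⟩ : ∃ t, b t ≠ 0 := by
      by_contra hcon
      push Not at hcon
      exact hb0 (funext hcon)
    have hct : c t ≠ 0 := fun h0 => ht (hbc t h0)
    obtain ⟨c', hc'⟩ : ∃ c' : ι → κ, ∀ i, c' i = c i - (c t / b t) * b i := ⟨_, fun _ => rfl⟩
    have h1 : ∀ T : Finset ι, ∑ i ∈ T, c' i • u i =
        ∑ i ∈ T, c i • u i - (c t / b t) • ∑ i ∈ T, b i • u i := by
      intro T
      rw [Finset.smul_sum, ← Finset.sum_sub_distrib]
      refine Finset.sum_congr rfl fun i _ => ?_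
      rw [hc', sub_smul, mul_smul]
    have h2 := hmin c' (by rw [h1, hc1, hb, smul_zero, sub_zero])
      (by rw [h1, hbP, smul_zero, sub_zero]; exact hc2)
    have h3 : (Finset.univ.filter fun i => c' i ≠ 0).card <
        (Finset.univ.filter fun i => c i ≠ 0).card := by
      refine Finset.card_lt_card ⟨fun i hi => ?_, fun hcon => ?_⟩
      · rw [Finset.mem_filter] at hi ⊢
        refine ⟨hi.1, fun h0 => hi.2 ?_⟩
        rw [hc', h0, hbc i h0, mul_zero, sub_zero]
      · have h4 := hcon (Finset.mem_filter.2 ⟨Finset.mem_univ t, hct⟩)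
        apply (Finset.mem_filter.1 h4).2
        rw [hc', div_mul_cancel₀ _ ht, sub_self]
    omega

end Pool.Agent.Lib.MP_44a246_ntFM
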