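import Mathlib
import Pool.Agent.Lib.MP_44a246_ntY.Y02
import Pool.Agent.Lib.MP_44a246_ntY.Y03
import Pool.Agent.Lib.MP_44a246_ntY.Y05

/-!
# The size of the Wronskian of a family with many units
-/

namespace Pool.Agent.Lib.MP_44a246_ntFM

open Pool.Agent.Lib.MP_44a246_nt
open Pool.Agent.Lib.MP_44a246_ntL
open Pool.Agent.Lib.MP_44a246_ntY
open WithZero

variable {κ L : Type*} [Field κ] [Field L] [Algebra κ L]

/-- the size of the Wronskian of a family `g` with `|g j| = 1` for `j ∉ bad` -/
theorem wr_local (w : Place κ L) (D : Derivation κ L L) {β : ℕ}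
    (hD : ∀ y, w.1 y ≤ 1 → w.1 (D y) ≤ exp (β : ℤ)) {k : ℕ} {g : Fin k → L}
    (hg : ∀ j, g j ≠ 0) (bad : Finset (Fin k)) (hbad : ∀ j ∉ bad, w.1 (g j) = 1) :
    w.1 (wr D g) ≤ exp (((k * (k - 1) * β : ℕ) : ℤ) + ∑ j, log (w.1 (g j)) +
      ((bad.card * (k - 1) : ℕ) : ℤ)) := by
  classical
  unfold wr
  refine (det_le_exp w.1 _ (x := fun i : Fin k => ((2 * (i : ℕ) * β : ℕ) : ℤ))
    (y := fun j => log (w.1 (g j)) + if j ∈ bad then ((k - 1 : ℕ) : ℤ) else 0) fun i j => ?_).trans ?_
  · rw [Matrix.of_apply]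
    have hgj : w.1 (g j) = exp (log (w.1 (g j))) :=
      (exp_log ((Valuation.ne_zero_iff w.1).2 (hg j))).symm
    by_cases hj : j ∈ bad
    · rw [if_pos hj]
      refine (der_iter_le w D hD hgj.le i).trans ?_
      rw [exp_le_exp]
      have h1 : ((i : ℕ) : ℤ) ≤ ((k - 1 : ℕ) : ℤ) := by
        have := i.2
        omega
      have h2 : (0 : ℤ) ≤ (i : ℕ) * β := by positivity
      push_cast
      nlinarith
    · rw [if_neg hj, hbad j hj]
      have h1 : w.1 (g j) ≤ exp ((0 : ℕ) : ℤ) := by
        rw [hbad j hj, Nat.cast_zero, exp_zero]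
      refine (der_iter_le' w D hD h1 i).trans ?_
      rw [exp_le_exp, log_one]
      push_cast
      linarith
  · rw [exp_le_exp, Finset.sum_add_distrib, ← Finset.sum_filter]
    have h1 : ∑ i : Fin k, ((2 * (i : ℕ) * β : ℕ) : ℤ) = ((k * (k - 1) * β : ℕ) : ℤ) := by
      rw [← Nat.cast_sum]
      congr 1
      rw [← Finset.sum_mul, ← Finset.mul_sum, Fin.sum_univ_eq_sum_range (fun i => i) k, mul_comm 2,
        Finset.sum_range_id_mul_two]
    have h2 : ∑ _j ∈ Finset.univ.filter (fun j => j ∈ bad), ((k - 1 : ℕ) : ℤ) =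
        ((bad.card * (k - 1) : ℕ) : ℤ) := by
      rw [Finset.sum_const, Finset.filter_mem_eq_inter, Finset.univ_inter, nsmul_eq_mul]
      push_cast
      rfl
    rw [h1, h2]
    linarith

/-- the Wronskians of the maximal subfamilies of a minimal dependent family have the same size -/
theorem wr_circuit (w : Place κ L) (D : Derivation κ L L) {k : ℕ} {u : Fin (k + 1) → L}
    {c : Fin (k + 1) → κ} (hc : ∑ j, c j • u j = 0) (hc0 : ∀ j, c j ≠ 0)
    (hind : ∀ t : Fin (k + 1), LinearIndependent κ fun j : Fin k => u (t.succAbove j))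
    (t t' : Fin (k + 1)) :
    w.1 (wr D fun j => u (t.succAbove j)) = w.1 (wr D fun j => u (t'.succAbove j)) := by
  have h1 : ∀ j, u (t.succAbove j) ∈
      Submodule.span κ (Set.range fun j : Fin k => u (t'.succAbove j)) := by
    have h2 : ∀ i, u i ∈ Submodule.span κ (Set.range fun j : Fin k => u (t'.succAbove j)) := by
      intro i
      by_cases hi : i = t'
      · subst hi
        have h3 : u i = -∑ j : Fin k, ((c i)⁻¹ * c (i.succAbove j)) • u (i.succAbove j) := by
          have h4 := hc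
          rw [Fin.sum_univ_succAbove _ i] at h4
          have h5 : c i • u i = -∑ j : Fin k, c (i.succAbove j) • u (i.succAbove j) :=
            eq_neg_of_add_eq_zero_left h4
          have h6 : u i = (c i)⁻¹ • (c i • u i) := by
            rw [smul_smul, inv_mul_cancel₀ (hc0 i), one_smul]
          rw [h6, h5, smul_neg, Finset.smul_sum]
          congr 1
          exact Finset.sum_congr rfl fun j _ => smul_smul _ _ _
        rw [h3]
        refine Submodule.neg_mem _ (Submodule.sum_mem _ fun j _ => Submodule.smul_mem _ _ ?_)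
        exact Submodule.subset_span ⟨j, rfl⟩
      · obtain ⟨j, hj⟩ := Fin.exists_succAbove_eq hi
        exact Submodule.subset_span ⟨j, by rw [← hj]⟩
    exact fun j => h2 _
  obtain ⟨q, hq, hwr⟩ := wr_basis D (hind t) h1
  rw [hwr, map_mul, w.2.2 q hq, one_mul]

end Pool.Agent.Lib.MP_44a246_ntFM
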