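import Mathlib
import Pool.Agent.Lib.MP_44a246_ntL.LMason
import Pool.Agent.Lib.MP_44a246_ntFM.FM02

/-!
# The local inequality for a minimal relation between multiples of powers
-/

namespace Pool.Agent.Lib.MP_44a246_ntFM

open Pool.Agent.Lib.MP_44a246_nt
open Pool.Agent.Lib.MP_44a246_ntL
open Pool.Agent.Lib.MP_44a246_ntY
open WithZero

variable {κ L : Type*} [Field κ] [Field L] [Algebra κ L]

/-- the bad part of the local inequality -/
noncomputable def badE {k : ℕ} (v : Valuation L ℤᵐ⁰) (a : Fin (k + 1) → L) : ℕ :=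
  open scoped Classical in
  if ∀ j, v (a j) = 1 then 0 else k * (k + 1) + ∑ j, (log (v (a j))).natAbs

/-- the number of the small coordinates -/
noncomputable def small {k : ℕ} (v : Valuation L ℤᵐ⁰) (x : Fin (k + 1) → L) : ℕ :=
  open scoped Classical in
  (Finset.univ.filter fun j => v (x j) < vmax v x).card

/-- **The local inequality** for a minimal relation between the `a j * x j ^ d`. -/
theorem circuit_local (w : Place κ L) (D : Derivation κ L L) {β : ℕ}
    (hD : ∀ y, w.1 y ≤ 1 → w.1 (D y) ≤ exp (β : ℤ)) {k d : ℕ} {x a : Fin (k + 1) → L}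
    (hx : ∀ j, x j ≠ 0) (ha : ∀ j, a j ≠ 0) {c : Fin (k + 1) → κ}
    (hc : ∑ j, c j • (a j * x j ^ d) = 0) (hc0 : ∀ j, c j ≠ 0)
    (hind : ∀ t : Fin (k + 1), LinearIndependent κ
      fun j : Fin k => a (t.succAbove j) * x (t.succAbove j) ^ d)
    (hW : (wr D fun j : Fin k =>
        a ((0 : Fin (k + 1)).succAbove j) * x ((0 : Fin (k + 1)).succAbove j) ^ d) ≠ 0) :
    log (w.1 (wr D fun j : Fin k =>
        a ((0 : Fin (k + 1)).succAbove j) * x ((0 : Fin (k + 1)).succAbove j) ^ d)) ≤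
      ∑ j, log (w.1 (a j * x j ^ d)) - d * log (vmax w.1 x) + ((k * (k - 1) * β : ℕ) : ℤ) +
        (((k - 1) * small w.1 x : ℕ) : ℤ) + (badE w.1 a : ℤ) := by
  classical
  have hx0 : x ≠ 0 := fun h0 => hx 0 (congrFun h0 0)
  obtain ⟨t, hxt, ht, hmax⟩ := exists_vmax w.1 hx0
  obtain ⟨u, hu⟩ : ∃ u : Fin (k + 1) → L, ∀ j, u j = a j * x j ^ d := ⟨_, fun _ => rfl⟩
  have hu0 : ∀ j, u j ≠ 0 := fun j => by
    rw [hu]
    exact mul_ne_zero (ha j) (pow_ne_zero _ (hx j))
  simp only [← hu] at hc hind hW ⊢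
  have hW' := (Valuation.ne_zero_iff w.1).2 hW
  rw [wr_circuit w D hc hc0 hind 0 t] at hW' ⊢
  obtain ⟨g, hg⟩ : ∃ g : Fin k → L, ∀ j, g j = u (t.succAbove j) / x t ^ d := ⟨_, fun _ => rfl⟩
  have hxd : x t ^ d ≠ 0 := pow_ne_zero _ hxt
  have hg0 : ∀ j, g j ≠ 0 := fun j => by
    rw [hg]
    exact div_ne_zero (hu0 _) hxd
  have hug : (fun j : Fin k => u (t.succAbove j)) = fun j => x t ^ d * g j := by
    funext j
    rw [hg, mul_div_cancel₀ _ hxd]
  rw [hug, wr_mul, map_mul, map_pow, map_pow] at hW' ⊢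
  have hwx : w.1 (x t) ≠ 0 := (Valuation.ne_zero_iff w.1).2 hxt
  have hW1 : w.1 (wr D g) ≠ 0 := right_ne_zero_of_mul hW'
  rw [log_mul (pow_ne_zero _ (pow_ne_zero _ hwx)) hW1, log_pow, log_pow, ht,
    Fin.sum_univ_succAbove (fun j => log (w.1 (u j))) t]
  have hlog : ∀ j, log (w.1 (g j)) = log (w.1 (u (t.succAbove j))) - d * log (w.1 (x t)) := by
    intro j
    rw [hg, map_div₀, map_pow, log_div ((Valuation.ne_zero_iff w.1).2 (hu0 _))
      (pow_ne_zero _ hwx), log_pow, nsmul_eq_mul]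
  have hut : log (w.1 (u t)) = log (w.1 (a t)) + d * log (w.1 (x t)) := by
    rw [hu, map_mul, map_pow, log_mul ((Valuation.ne_zero_iff w.1).2 (ha t))
      (pow_ne_zero _ hwx), log_pow, nsmul_eq_mul]
  have hsum : ∑ j : Fin k, log (w.1 (g j)) =
      ∑ j : Fin k, log (w.1 (u (t.succAbove j))) - k * (d * log (w.1 (x t))) := by
    simp only [hlog]
    rw [Finset.sum_sub_distrib, Finset.sum_const, Finset.card_univ, Fintype.card_fin,
      nsmul_eq_mul]
  rw [hut]
  -- the good places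
  by_cases hgood : ∀ j, w.1 (a j) = 1
  · obtain ⟨bad, hb⟩ : ∃ bad : Finset (Fin k), bad =
      Finset.univ.filter fun j => w.1 (x (t.succAbove j)) < vmax w.1 x := ⟨_, rfl⟩
    have h1 : w.1 (wr D g) ≤ _ := wr_local w D hD hg0 bad fun j hj => by
      have h2 : w.1 (x (t.succAbove j)) = w.1 (x t) := by
        have h3 : ¬ w.1 (x (t.succAbove j)) < vmax w.1 x := fun h4 => hj (by
          rw [hb]
          exact Finset.mem_filter.2 ⟨Finset.mem_univ _, h4⟩)
        rw [ht] at h3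
        exact le_antisymm (hmax _) (not_lt.1 h3)
      rw [hg, hu, map_div₀, map_mul, map_pow, map_pow, hgood, one_mul, h2,
        div_self (pow_ne_zero _ hwx)]
    have h2 : log (w.1 (wr D g)) ≤ _ := (log_le_log hW1 exp_ne_zero).2 h1
    rw [log_exp, hsum] at h2
    have h3 : bad.card ≤ small w.1 x := by
      rw [hb]
      unfold small
      refine Finset.card_le_card_of_injOn (fun j => t.succAbove j) (fun j hj => ?_)
        (fun i _ j _ hij => Fin.succAbove_right_injective hij)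
      rw [Finset.coe_filter] at hj
      rw [Finset.coe_filter]
      exact ⟨Finset.mem_univ _, hj.2⟩
    have h4 : ((bad.card * (k - 1) : ℕ) : ℤ) ≤ (((k - 1) * small w.1 x : ℕ) : ℤ) := by
      rw [mul_comm bad.card]
      exact_mod_cast Nat.mul_le_mul_left _ h3
    have h5 : log (w.1 (a t)) = 0 := by rw [hgood, log_one]
    have h6 : (0 : ℤ) ≤ (badE w.1 a : ℤ) := Int.natCast_nonneg _
    rw [h5]
    simp only [nsmul_eq_mul]
    linarith
  · have h1 : w.1 (wr D g) ≤ _ := wr_local w D hD hg0 Finset.univ fun j hj =>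
      absurd (Finset.mem_univ j) hj
    have h2 : log (w.1 (wr D g)) ≤ _ := (log_le_log hW1 exp_ne_zero).2 h1
    rw [log_exp, hsum, Finset.card_univ, Fintype.card_fin] at h2
    have h3 : badE w.1 a = k * (k + 1) + ∑ j, (log (w.1 (a j))).natAbs := by
      unfold badE
      rw [if_neg hgood]
    have h4 : (log (w.1 (a t))).natAbs ≤ ∑ j, (log (w.1 (a j))).natAbs :=
      Finset.single_le_sum (f := fun j => (log (w.1 (a j))).natAbs) (fun _ _ => Nat.zero_le _)
        (Finset.mem_univ t)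
    have h5 : k * (k - 1) ≤ k * (k + 1) := Nat.mul_le_mul_left _ (by omega)
    have h6 : ((k * (k - 1) : ℕ) : ℤ) ≤ log (w.1 (a t)) + (badE w.1 a : ℤ) := by
      rw [h3]
      omega
    have h7 : (0 : ℤ) ≤ (((k - 1) * small w.1 x : ℕ) : ℤ) := Int.natCast_nonneg _
    simp only [nsmul_eq_mul]
    linarith

end Pool.Agent.Lib.MP_44a246_ntFM
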