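import Mathlib
import Pool.Agent.Lib.MP_44a246_ntL.LMason
import Pool.Agent.Lib.MP_44a246_ntFM.FM03

/-!
# The height of the solutions of a minimal relation between multiples of powers
-/

namespace Pool.Agent.Lib.MP_44a246_ntFM

open Pool.Agent.Lib.MP_e52354_nt
open Pool.Agent.Lib.MP_44a246_nt
open Pool.Agent.Lib.MP_44a246_ntL
open Pool.Agent.Lib.MP_44a246_ntY
open WithZero

universe w

section

variable {κ K L : Type*} [Field κ] [IsAlgClosed κ] [CharZero κ] [Field K] [Algebra κ K]
  [Field L] [Algebra κ L] [Algebra K L] [IsScalarTower κ K L] [FiniteDimensional K L]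

/-- the bad part in an extension -/
theorem badE_below {k : ℕ} (a : Fin (k + 1) → K) (w : Place κ L) :
    badE w.1 (fun j => algebraMap K L (a j)) ≤ ramIdx K w.1 * badE (below K w).1 a := by
  classical
  have he := one_le_ramIdx (K := K) w.1 w.2.1
  have h1 : ∀ j, w.1 (algebraMap K L (a j)) = (below K w).1 (a j) ^ ramIdx K w.1 := fun j =>
    below_pow w (a j)
  by_cases hgood : ∀ j, (below K w).1 (a j) = 1
  · have h2 : ∀ j, w.1 (algebraMap K L (a j)) = 1 := fun j => by
      rw [h1, hgood, one_pow]
    unfold badE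
    rw [if_pos h2]
    exact Nat.zero_le _
  · have h3 : badE (below K w).1 a =
        k * (k + 1) + ∑ j, (log ((below K w).1 (a j))).natAbs := by
      unfold badE
      rw [if_neg hgood]
    have h4 : badE w.1 (fun j => algebraMap K L (a j)) ≤
        k * (k + 1) + ∑ j, (log (w.1 (algebraMap K L (a j)))).natAbs := by
      unfold badE
      split_ifs
      · exact Nat.zero_le _
      · exact le_rfl
    refine h4.trans ?_
    rw [h3, mul_add (ramIdx K w.1), Finset.mul_sum]
    refine add_le_add (Nat.le_mul_of_pos_left _ he) (Finset.sum_le_sum fun j _ => ?_)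
    rw [h1, log_pow, nsmul_eq_mul, Int.natAbs_mul, Int.natAbs_natCast]

theorem small_le {k : ℕ} (hL : IsFF κ L) {x : Fin (k + 1) → L} (hx : ∀ j, x j ≠ 0) :
    (Function.support fun w : Place κ L => (small w.1 x : ℤ)).Finite ∧
    ∑ᶠ w : Place κ L, (small w.1 x : ℤ) ≤ (k + 1) * height κ x := by
  classical
  have hx0 : x ≠ 0 := fun h0 => hx 0 (congrFun h0 0)
  have hfin : ∀ j : Fin (k + 1), (Function.support fun w : Place κ L =>
      log (vmax w.1 x) - log (w.1 (x j))).Finite := fun j =>
    ((hL.vmax_support hx0).union (hL.place_support (hx j))).subset (Function.support_sub _ _)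
  have hpt : ∀ w : Place κ L, (small w.1 x : ℤ) ≤
      ∑ j : Fin (k + 1), (log (vmax w.1 x) - log (w.1 (x j))) := by
    intro w
    have hvm : vmax w.1 x ≠ 0 := by rwa [Ne, vmax_eq_zero_iff]
    have h1 : ∀ j, (if w.1 (x j) < vmax w.1 x then (1 : ℤ) else 0) ≤
        log (vmax w.1 x) - log (w.1 (x j)) := by
      intro j
      have hwj : w.1 (x j) ≠ 0 := (Valuation.ne_zero_iff w.1).2 (hx j)
      split_ifs with h2
      · have h3 := (log_lt_log hwj hvm).2 h2
        omega
      · have h3 := (log_le_log hwj hvm).2 (le_vmax w.1 x j)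
        omega
    refine le_trans (le_of_eq ?_) (Finset.sum_le_sum fun j _ => h1 j)
    unfold small
    rw [← Finset.sum_filter, Finset.sum_const, nsmul_eq_mul, mul_one]
  have hsupp : (Function.support fun w : Place κ L => (small w.1 x : ℤ)).Finite := by
    refine (Set.finite_iUnion hfin).subset fun w hw => ?_
    rw [Set.mem_iUnion]
    by_contra hcon
    push Not at hcon
    apply hw
    have h1 : ∑ j : Fin (k + 1), (log (vmax w.1 x) - log (w.1 (x j))) = 0 :=
      Finset.sum_eq_zero fun j _ => by
        have h2 := hcon j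
        rwa [Function.notMem_support] at h2
    have h2 := hpt w
    rw [h1] at h2
    exact le_antisymm h2 (Int.natCast_nonneg _)
  refine ⟨hsupp, ?_⟩
  have hS : (Function.support fun w : Place κ L =>
      ∑ j : Fin (k + 1), (log (vmax w.1 x) - log (w.1 (x j)))).Finite := by
    refine (Set.finite_iUnion hfin).subset fun w hw => ?_
    rw [Set.mem_iUnion]
    by_contra hcon
    push Not at hcon
    exact hw (Finset.sum_eq_zero fun j _ => by
      have h2 := hcon j
      rwa [Function.notMem_support] at h2)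
  refine (finsum_mono hsupp hS hpt).trans (le_of_eq ?_)
  rw [finsum_sum_comm Finset.univ _ fun j _ => hfin j]
  have h1 : ∀ j : Fin (k + 1), ∑ᶠ w : Place κ L, (log (vmax w.1 x) - log (w.1 (x j))) =
      height κ x := by
    intro j
    rw [finsum_sub_distrib (hL.vmax_support hx0) (hL.place_support (hx j)),
      hL.product_formula (hx j), sub_zero]
    rfl
  rw [Finset.sum_congr rfl fun j _ => h1 j, Finset.sum_const, Finset.card_univ, Fintype.card_fin,
    nsmul_eq_mul]
  push_cast
  rfl

end

/-- **The height of the solutions of a minimal relation between multiples of powers.** -/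
theorem circuit_height {κ K : Type*} [Field κ] [IsAlgClosed κ] [CharZero κ] [Field K] [Algebra κ K]
    (hK : IsFF κ K) {k : ℕ} (d : ℕ) (a : Fin (k + 1) → K) (ha : ∀ j, a j ≠ 0) :
    ∃ C : ℕ, ∀ (L : Type w) [Field L] [Algebra κ L] [Algebra K L] [IsScalarTower κ K L]
      [FiniteDimensional K L] (x : Fin (k + 1) → L), (∀ j, x j ≠ 0) →
      ∀ c : Fin (k + 1) → κ, (∀ j, c j ≠ 0) →
      ∑ j, c j • (algebraMap K L (a j) * x j ^ d) = 0 →
      (∀ t : Fin (k + 1), LinearIndependent κ fun j : Fin k =>
        algebraMap K L (a (t.succAbove j)) * x (t.succAbove j) ^ d) →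
      (d : ℤ) * height κ x ≤ ((k - 1 : ℕ) : ℤ) * ∑ᶠ w : Place κ L, (small w.1 x : ℤ) +
        ((k * (k - 1) : ℕ) : ℤ) * (ramDeg κ L K : ℤ) + (C : ℤ) * Module.finrank K L := by
  classical
  obtain ⟨t, ht, hfin⟩ := id hK
  have halg : Algebra.IsAlgebraic (IntermediateField.adjoin κ {t}) K :=
    Algebra.IsAlgebraic.of_finite _ _
  obtain ⟨D₀, hD₀⟩ : ∃ D₀ : Derivation κ K K, D₀ t = 1 := by
    have h1 : AlgebraicIndependent κ (fun _ : Unit => t) :=
      algebraicIndependent_unique_type_iff.mpr ht
    have h2 : IsTranscendenceBasis κ (fun _ : Unit => t) := by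
      rw [h1.isTranscendenceBasis_iff_isAlgebraic, ← IntermediateField.isAlgebraic_adjoin_iff_top,
        Set.range_const]
      exact halg
    have h3 := h2.isAlgebraic
    obtain ⟨D, hD⟩ := exists_derivation h1 (fun _ => 1)
    exact ⟨D, hD ()⟩
  let D : Derivation ℤ K K := D₀.restrictScalars ℤ
  have hDκ : ∀ c : κ, D (algebraMap κ K c) = 0 := fun c => D₀.map_algebraMap c
  have hDt : D t = 1 := hD₀
  obtain ⟨B, hBfin, hB⟩ := exists_poleBound ht hfin D (fun c => ⟨0, by rw [hDκ, map_zero]⟩)
    ⟨1, by rw [hDt, map_one]⟩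
  -- the bad places of `K`
  have hbadfin : (Function.support fun v : Place κ K => badE v.1 a).Finite := by
    refine (Set.finite_iUnion fun j => hK.place_finite (ha j)).subset fun v hv => ?_
    rw [Set.mem_iUnion]
    by_contra hcon
    push Not at hcon
    apply hv
    have h1 : ∀ j, v.1 (a j) = 1 := fun j => by
      have h2 := hcon j
      simpa using h2
    show badE v.1 a = 0
    unfold badE
    rw [if_pos h1]
  refine ⟨k * (k - 1) * (∑ᶠ v, B v) + ∑ᶠ v : Place κ K, badE v.1 a, ?_⟩
  intro L _ _ _ _ _ x hx c hc0 hc hind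
  have hL : IsFF κ L := hK.of_finite
  have hcK : CharZero K := charZero_of_injective_algebraMap (algebraMap κ K).injective
  have hx0 : x ≠ 0 := fun h0 => hx 0 (congrFun h0 0)
  obtain ⟨D', hD'⟩ := exists_extension (K := K) (L := L) D
  have hD'κ : ∀ c : κ, D' (algebraMap κ L c) = 0 := by
    intro c
    rw [IsScalarTower.algebraMap_apply κ K L, hD', hDκ, map_zero]
  have hD't : D' (algebraMap K L t) = 1 := by
    rw [hD', hDt, map_one]
  let D'' : Derivation κ L L := Derivation.mk'
    { toFun := D'
      map_add' := map_add D'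
      map_smul' := fun c z => by
        show D' (c • z) = c • D' z
        rw [Algebra.smul_def, Derivation.leibniz, hD'κ, smul_zero, add_zero, smul_eq_mul,
          ← Algebra.smul_def] }
    (fun a b => Derivation.leibniz D' a b)
  have hconst : ∀ y, D'' y = 0 → ∃ c : κ, algebraMap κ L c = y := fun y hy =>
    mason_const hL D'' (s := algebraMap K L t) (by show D' _ ≠ 0; rw [hD't]; exact one_ne_zero) hy
  have ha' : ∀ j, algebraMap K L (a j) ≠ 0 := fun j => (map_ne_zero _).2 (ha j)
  obtain ⟨W, hW⟩ : ∃ W, W = wr D'' fun j : Fin k =>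
    algebraMap K L (a ((0 : Fin (k + 1)).succAbove j)) * x ((0 : Fin (k + 1)).succAbove j) ^ d :=
    ⟨_, rfl⟩
  have hW0 : W ≠ 0 := by
    rw [hW]
    exact wr_ne_zero D'' hconst (hind 0)
  have hloc : ∀ w : Place κ L, log (w.1 W) + d * log (vmax w.1 x) ≤
      ∑ j, log (w.1 (algebraMap K L (a j) * x j ^ d)) +
      (((k * (k - 1) : ℕ) : ℤ) * (((ramIdx K w.1 * B (below K w) : ℕ) : ℤ) +
        ((ramIdx K w.1 - 1 : ℕ) : ℤ)) + ((k - 1 : ℕ) : ℤ) * (small w.1 x : ℤ) +
        ((ramIdx K w.1 * badE (below K w).1 a : ℕ) : ℤ)) := by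
    intro w
    have h1 := circuit_local w D'' (β := ramIdx K w.1 * B (below K w) + (ramIdx K w.1 - 1))
      (fun y hy => polar_over hL hD' hB w hy) hx ha' hc hc0 hind (by rw [← hW]; exact hW0)
    rw [← hW] at h1
    have h2 : (badE w.1 (fun j => algebraMap K L (a j)) : ℤ) ≤
        ((ramIdx K w.1 * badE (below K w).1 a : ℕ) : ℤ) := by exact_mod_cast badE_below a w
    push_cast at h1 h2 ⊢
    linarith
  obtain ⟨hs1, he1⟩ := mason_sum_over hL hBfin
  obtain ⟨hs2, he2⟩ := mason_sum_ram (K := K) hL
  obtain ⟨hs3, he3⟩ := mason_sum_over hL hbadfin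
  obtain ⟨hs4, -⟩ := small_le hL hx
  have hs5 := hL.place_support (κ := κ) hW0
  have hs6 := hL.vmax_support hx0
  have hs7 : ∀ j, (Function.support fun w : Place κ L =>
      log (w.1 (algebraMap K L (a j) * x j ^ d))).Finite := fun j =>
    hL.place_support (mul_ne_zero (ha' j) (pow_ne_zero _ (hx j)))
  obtain ⟨T, hT⟩ : ∃ T : Finset (Place κ L), T = hs1.toFinset ∪ (hs2.toFinset ∪ (hs3.toFinset ∪
    (hs4.toFinset ∪ (hs5.toFinset ∪ (hs6.toFinset ∪
      Finset.univ.biUnion fun j => (hs7 j).toFinset))))) := ⟨_, rfl⟩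
  have hfs : ∀ {f : Place κ L → ℤ} (hf : (Function.support f).Finite), hf.toFinset ⊆ T →
      ∑ᶠ w, f w = ∑ w ∈ T, f w := by
    intro f hf hfT
    refine finsum_eq_sum_of_support_subset _ fun w hw => ?_
    exact hfT ((Set.Finite.mem_toFinset hf).2 hw)
  have e1 := hfs hs1 (by
    rw [hT]
    exact Finset.subset_union_left)
  have e2 := hfs hs2 (by
    rw [hT]
    exact Finset.subset_union_left.trans Finset.subset_union_right)
  have e3 := hfs hs3 (by
    rw [hT]
    exact (Finset.subset_union_left.trans Finset.subset_union_right).trans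
      Finset.subset_union_right)
  have e4 := hfs hs4 (by
    rw [hT]
    exact ((Finset.subset_union_left.trans Finset.subset_union_right).trans
      Finset.subset_union_right).trans Finset.subset_union_right)
  have e5 := hfs hs5 (by
    rw [hT]
    exact (((Finset.subset_union_left.trans Finset.subset_union_right).trans
      Finset.subset_union_right).trans Finset.subset_union_right).trans
      Finset.subset_union_right)
  have e6 := hfs hs6 (by
    rw [hT]
    exact ((((Finset.subset_union_left.trans Finset.subset_union_right).trans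
      Finset.subset_union_right).trans Finset.subset_union_right).trans
      Finset.subset_union_right).trans Finset.subset_union_right)
  have e7 : ∀ j, ∑ᶠ w : Place κ L, log (w.1 (algebraMap K L (a j) * x j ^ d)) =
      ∑ w ∈ T, log (w.1 (algebraMap K L (a j) * x j ^ d)) := fun j => hfs (hs7 j) (by
    rw [hT]
    exact (Finset.subset_biUnion_of_mem (fun j => (hs7 j).toFinset) (Finset.mem_univ j)).trans
      (((((Finset.subset_union_right.trans Finset.subset_union_right).trans
      Finset.subset_union_right).trans Finset.subset_union_right).trans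
      Finset.subset_union_right).trans Finset.subset_union_right))
  have hsum := Finset.sum_le_sum fun w (_ : w ∈ T) => hloc w
  rw [Finset.sum_add_distrib, ← Finset.mul_sum, ← e5, ← e6, hL.product_formula hW0,
    Finset.sum_add_distrib, Finset.sum_add_distrib, Finset.sum_add_distrib, ← Finset.mul_sum,
    ← Finset.mul_sum, Finset.sum_add_distrib, ← e1, ← e2, ← e3, ← e4, he1, he2, he3,
    Finset.sum_comm] at hsum
  have h0 : ∑ j : Fin (k + 1), ∑ w ∈ T, log (w.1 (algebraMap K L (a j) * x j ^ d)) = 0 := by
    refine Finset.sum_eq_zero fun j _ => ?_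
    rw [← e7, hL.product_formula (mul_ne_zero (ha' j) (pow_ne_zero _ (hx j)))]
  rw [h0] at hsum
  have hht : height κ x = ∑ᶠ w : Place κ L, log (vmax w.1 x) := rfl
  rw [hht]
  push_cast at hsum ⊢
  linarith

end Pool.Agent.Lib.MP_44a246_ntFM
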