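import Mathlib
import Pool.Agent.Lib.MP_44a246_ntFM.FM01
import Pool.Agent.Lib.MP_44a246_ntFM.FM04

/-!
# The height of the points of a diagonal hypersurface over a function field
-/

namespace Pool.Agent.Lib.MP_44a246_ntFM

open Pool.Agent.Lib.MP_e52354_nt
open Pool.Agent.Lib.MP_44a246_nt
open Pool.Agent.Lib.MP_44a246_ntL
open WithZero

universe w

section

set_option linter.unusedSectionVars false

variable {κ L : Type*} [Field κ] [IsAlgClosed κ] [CharZero κ] [Field L] [Algebra κ L]

/-- the height of a subfamily -/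
noncomputable def subHt (κ : Type*) {L ι : Type*} [Field κ] [Field L] [Algebra κ L] (x : ι → L)
    (P : Finset ι) : ℤ :=
  ∑ᶠ w : Place κ L, log (P.sup fun i => w.1 (x i))

theorem sup_ne_zero {ι : Type*} {x : ι → L} (hx : ∀ i, x i ≠ 0) {P : Finset ι}
    (hP : P.Nonempty) (w : Place κ L) : (P.sup fun i => w.1 (x i)) ≠ 0 := by
  obtain ⟨i, hi⟩ := hP
  have h1 : w.1 (x i) ≤ P.sup fun i => w.1 (x i) := Finset.le_sup (f := fun i => w.1 (x i)) hi
  intro h0
  rw [h0, le_zero_iff] at h1
  exact (Valuation.ne_zero_iff w.1).2 (hx i) h1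

theorem sup_support (hL : IsFF κ L) {ι : Type*} [Finite ι] {x : ι → L} (hx : ∀ i, x i ≠ 0)
    {P : Finset ι} (hP : P.Nonempty) :
    (Function.support fun w : Place κ L => log (P.sup fun i => w.1 (x i))).Finite := by
  refine (Set.finite_iUnion fun i => hL.place_finite (hx i)).subset fun w hw => ?_
  rw [Set.mem_iUnion]
  by_contra hcon
  push Not at hcon
  apply hw
  have h1 : ∀ i, w.1 (x i) = 1 := fun i => by
    have h2 := hcon i
    simpa using h2
  show log (P.sup fun i => w.1 (x i)) = 0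
  have h3 : (P.sup fun i => w.1 (x i)) = 1 := by
    obtain ⟨i, hi⟩ := hP
    refine le_antisymm (Finset.sup_le fun j _ => (h1 j).le) ?_
    calc (1 : ℤᵐ⁰) = w.1 (x i) := (h1 i).symm
      _ ≤ _ := Finset.le_sup (f := fun i => w.1 (x i)) hi
  rw [h3, log_one]

/-- the height of a union -/
theorem subHt_union (hL : IsFF κ L) {ι : Type*} [Finite ι] [DecidableEq ι] {x : ι → L}
    (hx : ∀ i, x i ≠ 0) {P Q : Finset ι} {i₀ : ι} (hP : i₀ ∈ P) (hQ : i₀ ∈ Q) :
    subHt κ x (P ∪ Q) ≤ subHt κ x P + subHt κ x Q := by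
  have hP' := sup_support (κ := κ) hL hx ⟨i₀, hP⟩
  have hQ' := sup_support (κ := κ) hL hx ⟨i₀, hQ⟩
  have hU : (P ∪ Q).Nonempty := ⟨i₀, Finset.mem_union_left _ hP⟩
  have hU' := sup_support (κ := κ) hL hx hU
  have hi := hL.place_support (κ := κ) (hx i₀)
  have hpt : ∀ w : Place κ L, log ((P ∪ Q).sup fun i => w.1 (x i)) + log (w.1 (x i₀)) ≤
      log (P.sup fun i => w.1 (x i)) + log (Q.sup fun i => w.1 (x i)) := by
    intro w
    have h1 := sup_ne_zero hx ⟨i₀, hP⟩ w
    have h2 := sup_ne_zero hx ⟨i₀, hQ⟩ w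
    have h3 := sup_ne_zero hx hU w
    have h4 : w.1 (x i₀) ≠ 0 := (Valuation.ne_zero_iff w.1).2 (hx i₀)
    rw [← log_mul h3 h4, ← log_mul h1 h2]
    refine (log_le_log (mul_ne_zero h3 h4) (mul_ne_zero h1 h2)).2 ?_
    have h5 : w.1 (x i₀) ≤ P.sup fun i => w.1 (x i) :=
      Finset.le_sup (f := fun i => w.1 (x i)) hP
    have h6 : w.1 (x i₀) ≤ Q.sup fun i => w.1 (x i) :=
      Finset.le_sup (f := fun i => w.1 (x i)) hQ
    rw [Finset.sup_union]
    rcases le_total (P.sup fun i => w.1 (x i)) (Q.sup fun i => w.1 (x i)) with h7 | h7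
    · rw [sup_eq_right.2 h7, mul_comm]
      exact mul_le_mul' h5 le_rfl
    · rw [sup_eq_left.2 h7]
      exact mul_le_mul' le_rfl h6
  have h1 := finsum_mono ((hU'.union hi).subset (Function.support_add _ _))
    ((hP'.union hQ').subset (Function.support_add _ _)) hpt
  rw [finsum_add_distrib hU' hi, finsum_add_distrib hP' hQ', hL.product_formula (hx i₀),
    add_zero] at h1
  exact h1

theorem subHt_singleton (hL : IsFF κ L) {ι : Type*} {x : ι → L} {i : ι} (hx : x i ≠ 0) :
    subHt κ x {i} = 0 := by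
  unfold subHt
  simp only [Finset.sup_singleton]
  exact hL.product_formula hx

theorem subHt_univ {k : ℕ} (x : Fin (k + 1) → L) :
    subHt κ x Finset.univ = height κ x := rfl

theorem height_comp {m k : ℕ} (x : Fin (m + 1) → L) (e : Fin (k + 1) → Fin (m + 1)) :
    height κ (fun j => x (e j)) = subHt κ x (Finset.univ.image e) := by
  classical
  unfold height subHt
  refine finsum_congr fun w => ?_
  unfold vmax
  rw [Finset.sup_image]
  rfl

/-- the number of the small coordinates of a subfamily, if some of the coordinates are counted -/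
theorem small_le_count {m k : ℕ} (hL : IsFF κ L) {x : Fin (m + 1) → L} (hx : ∀ j, x j ≠ 0)
    (e : Fin (k + 1) → Fin (m + 1)) (B : Finset (Fin (m + 1))) :
    ∑ᶠ w : Place κ L, (small w.1 (fun j => x (e j)) : ℤ) ≤
      ((Finset.univ.filter fun j => e j ∉ B).card : ℤ) * height κ (fun j => x (e j)) +
      ((Finset.univ.filter fun j => e j ∈ B).card : ℤ) *
        ({w : Place κ L | ∃ j ∈ B, w.1 (x j) < vmax w.1 x}.ncard : ℤ) := by
  classical
  obtain ⟨z, hz⟩ : ∃ z : Fin (k + 1) → L, z = fun j => x (e j) := ⟨_, rfl⟩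
  have hzj : ∀ j, z j ≠ 0 := fun j => by
    rw [hz]
    exact hx _
  have hx0 : x ≠ 0 := fun h0 => hx 0 (congrFun h0 0)
  have hz0 : z ≠ 0 := fun h0 => hzj 0 (congrFun h0 0)
  obtain ⟨W, hW⟩ : ∃ W : Set (Place κ L), W = {w : Place κ L | ∃ j ∈ B, w.1 (x j) < vmax w.1 x} :=
    ⟨_, rfl⟩
  rw [← hz, ← hW]
  have hWf : W.Finite := by
    refine ((Set.finite_iUnion fun j => hL.place_finite (hx j)).union
      (hL.vmax_support hx0)).subset fun w hw => ?_
    rw [hW] at hw
    obtain ⟨j, -, hj⟩ := hw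
    rw [Set.mem_union]
    by_contra hcon
    push Not at hcon
    obtain ⟨h1, h2⟩ := hcon
    have h3 : w.1 (x j) = 1 := by
      by_contra h0
      exact h1 (Set.mem_iUnion.2 ⟨j, h0⟩)
    have h4 : log (vmax w.1 x) = 0 := by
      by_contra h0
      exact h2 h0
    have h5 : vmax w.1 x ≠ 0 := by rwa [Ne, vmax_eq_zero_iff]
    have h6 : vmax w.1 x = 1 := by
      rw [← exp_log h5, h4, exp_zero]
    rw [h3, h6] at hj
    exact lt_irrefl _ hj
  have hfin : ∀ j : Fin (k + 1), (Function.support fun w : Place κ L =>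
      log (vmax w.1 z) - log (w.1 (z j))).Finite := fun j =>
    ((hL.vmax_support hz0).union (hL.place_support (hzj j))).subset (Function.support_sub _ _)
  obtain ⟨N, hN⟩ : ∃ N : Finset (Fin (k + 1)), N = Finset.univ.filter fun j => e j ∉ B := ⟨_, rfl⟩
  obtain ⟨M, hM⟩ : ∃ M : Finset (Fin (k + 1)), M = Finset.univ.filter fun j => e j ∈ B := ⟨_, rfl⟩
  rw [← hN, ← hM]
  have hpt : ∀ w : Place κ L, (small w.1 z : ℤ) ≤
      ∑ j ∈ N, (log (vmax w.1 z) - log (w.1 (z j))) + (M.card : ℤ) * if w ∈ W then 1 else 0 := by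
    intro w
    have hvm : vmax w.1 z ≠ 0 := by rwa [Ne, vmax_eq_zero_iff]
    have h1 : ∀ j ∈ N, (if w.1 (z j) < vmax w.1 z then (1 : ℤ) else 0) ≤
        log (vmax w.1 z) - log (w.1 (z j)) := by
      intro j _
      have hwj : w.1 (z j) ≠ 0 := (Valuation.ne_zero_iff w.1).2 (hzj j)
      split_ifs with h2
      · have h3 := (log_lt_log hwj hvm).2 h2
        omega
      · have h3 := (log_le_log hwj hvm).2 (le_vmax w.1 z j)
        omega
    have h2 : ∀ j ∈ M, (if w.1 (z j) < vmax w.1 z then (1 : ℤ) else 0) ≤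
        if w ∈ W then 1 else 0 := by
      intro j hj
      rw [hM] at hj
      split_ifs with h3 h4
      · exact le_rfl
      · exfalso
        apply h4
        rw [hW]
        refine ⟨e j, (Finset.mem_filter.1 hj).2, ?_⟩
        have h5 : z j = x (e j) := by rw [hz]
        rw [← h5]
        refine h3.trans_le ?_
        unfold vmax
        refine Finset.sup_le fun i _ => ?_
        rw [hz]
        exact Finset.le_sup (f := fun i => w.1 (x i)) (Finset.mem_univ _)
      · exact zero_le_one
      · exact le_rfl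
    have h3 : (small w.1 z : ℤ) = ∑ j ∈ N, (if w.1 (z j) < vmax w.1 z then (1 : ℤ) else 0) +
        ∑ j ∈ M, (if w.1 (z j) < vmax w.1 z then (1 : ℤ) else 0) := by
      have h4 : (small w.1 z : ℤ) = ∑ j, (if w.1 (z j) < vmax w.1 z then (1 : ℤ) else 0) := by
        unfold small
        rw [← Finset.sum_filter, Finset.sum_const, nsmul_eq_mul, mul_one]
      rw [h4, hN, hM, ← Finset.sum_filter_add_sum_filter_not Finset.univ (fun j => e j ∉ B)]
      congr 2
      ext j
      simp
    rw [h3]
    refine add_le_add (Finset.sum_le_sum h1) ((Finset.sum_le_sum h2).trans (le_of_eq ?_))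
    rw [Finset.sum_const, nsmul_eq_mul]
  have hS : (Function.support fun w : Place κ L =>
      ∑ j ∈ N, (log (vmax w.1 z) - log (w.1 (z j)))).Finite := by
    refine (Set.finite_iUnion hfin).subset fun w hw => ?_
    rw [Set.mem_iUnion]
    by_contra hcon
    push Not at hcon
    exact hw (Finset.sum_eq_zero fun j _ => by
      have h2 := hcon j
      rwa [Function.notMem_support] at h2)
  have hS' : (Function.support fun w : Place κ L =>
      (M.card : ℤ) * if w ∈ W then (1 : ℤ) else 0).Finite := by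
    refine hWf.subset fun w hw => ?_
    by_contra hcon
    apply hw
    show (M.card : ℤ) * (if w ∈ W then (1 : ℤ) else 0) = 0
    rw [if_neg hcon, mul_zero]
  refine (finsum_mono (small_le hL hzj).1 ((hS.union hS').subset (Function.support_add _ _))
    hpt).trans (le_of_eq ?_)
  rw [finsum_add_distrib hS hS', finsum_sum_comm N _ fun j _ => hfin j]
  have h1 : ∀ j : Fin (k + 1), ∑ᶠ w : Place κ L, (log (vmax w.1 z) - log (w.1 (z j))) =
      height κ z := by
    intro j
    rw [finsum_sub_distrib (hL.vmax_support hz0) (hL.place_support (hzj j)),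
      hL.product_formula (hzj j), sub_zero]
    rfl
  rw [Finset.sum_congr rfl fun j _ => h1 j, Finset.sum_const, nsmul_eq_mul]
  congr 1
  refine (mul_finsum (fun w : Place κ L => if w ∈ W then (1 : ℤ) else 0) (M.card : ℤ)).symm.trans ?_
  congr 1
  rw [finsum_eq_sum_of_support_subset (s := hWf.toFinset) _ fun w hw => ?_]
  · rw [Set.ncard_eq_toFinset_card W hWf, ← Finset.sum_filter, Finset.sum_const, nsmul_eq_mul,
      mul_one]
    congr 2
    ext w
    simp
  · rw [Set.Finite.coe_toFinset]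
    by_contra hcon
    apply hw
    show (if w ∈ W then (1 : ℤ) else 0) = 0
    rw [if_neg hcon]

end

end Pool.Agent.Lib.MP_44a246_ntFM
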