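import Mathlib
import Pool.Agent.Lib.MP_44a246_ntFM.FM05

/-!
# The height of the points of a diagonal hypersurface over a function field
-/

namespace Pool.Agent.Lib.MP_44a246_ntFM

open Pool.Agent.Lib.MP_e52354_nt
open Pool.Agent.Lib.MP_44a246_nt
open Pool.Agent.Lib.MP_44a246_ntL
open WithZero

universe w

/-- **The height of the points of a diagonal hypersurface over a function field**, outside of the
zeros of the partial sums. -/
theorem diag_height {κ K : Type*} [Field κ] [IsAlgClosed κ] [CharZero κ] [Field K] [Algebra κ K]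
    (hK : IsFF κ K) {m d : ℕ} (hm : 1 ≤ m) (B : Finset (Fin (m + 1)))
    (hd : (m - 1) * (m + 1 - B.card) < d) (a : Fin (m + 1) → K) (ha : ∀ j, a j ≠ 0) :
    ∃ C : ℕ, ∀ (L : Type w) [Field L] [Algebra κ L] [Algebra K L] [IsScalarTower κ K L]
      [FiniteDimensional K L] (x : Fin (m + 1) → L),
      ∑ j, algebraMap K L (a j) * x j ^ d = 0 →
      (∀ I : Finset (Fin (m + 1)), I.Nonempty → I ≠ Finset.univ →
        ∑ j ∈ I, algebraMap K L (a j) * x j ^ d ≠ 0) →
      ((d : ℤ) - ((m - 1) * (m + 1 - B.card) : ℕ)) * height κ x ≤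
        m * (((m - 1) * B.card : ℕ) *
          ({w : Place κ L | ∃ j ∈ B, w.1 (x j) < vmax w.1 x}.ncard : ℤ) +
          (m * (m - 1) : ℕ) * (ramDeg κ L K : ℤ) + (C : ℤ) * Module.finrank K L) := by
  classical
  choose C₀ hC₀ using fun (k : Fin (m + 1)) (e : Fin ((k : ℕ) + 1) → Fin (m + 1)) =>
    circuit_height.{w} hK d (fun j => a (e j)) fun j => ha (e j)
  obtain ⟨C, hC⟩ : ∃ C : ℕ, C = ∑ k : Fin (m + 1), ∑ e : Fin ((k : ℕ) + 1) → Fin (m + 1), C₀ k e :=
    ⟨_, rfl⟩
  refine ⟨C, ?_⟩
  intro L _ _ _ _ _ x hx hsub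
  have hL : IsFF κ L := hK.of_finite
  obtain ⟨N, hN⟩ : ∃ N : ℕ, N = {w : Place κ L | ∃ j ∈ B, w.1 (x j) < vmax w.1 x}.ncard := ⟨_, rfl⟩
  rw [← hN]
  obtain ⟨M, hM⟩ : ∃ M : ℤ, M = ((m - 1) * B.card : ℕ) * (N : ℤ) +
    (m * (m - 1) : ℕ) * (ramDeg κ L K : ℤ) + (C : ℤ) * Module.finrank K L := ⟨_, rfl⟩
  have hM0 : 0 ≤ M := by
    rw [hM]
    positivity
  rw [← hM]
  have hd0 : d ≠ 0 := by omega
  -- the coordinates do not vanish
  have hx0 : ∀ j, x j ≠ 0 := by
    intro j h0
    refine hsub {j} ⟨j, Finset.mem_singleton_self j⟩ ?_ ?_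
    · intro h1
      have h2 := congrArg Finset.card h1
      rw [Finset.card_singleton, Finset.card_univ, Fintype.card_fin] at h2
      omega
    · rw [Finset.sum_singleton, h0, zero_pow hd0, mul_zero]
  -- the bound for a minimal relation
  have hcirc : ∀ c : Fin (m + 1) → κ,
      ∑ j, c j • (algebraMap K L (a j) * x j ^ d) = 0 → (∃ j, c j ≠ 0) →
      (∀ b : Fin (m + 1) → κ, ∑ i, b i • (algebraMap K L (a i) * x i ^ d) = 0 →
        (∀ i, c i = 0 → b i = 0) → (∃ i, c i ≠ 0 ∧ b i = 0) → b = 0) →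
      ((d : ℤ) - ((m - 1) * (m + 1 - B.card) : ℕ)) * subHt κ x (Finset.univ.filter fun j => c j ≠ 0) ≤ M := by
    intro c hc hc0 hmin
    obtain ⟨I, hI⟩ : ∃ I : Finset (Fin (m + 1)), I = Finset.univ.filter fun j => c j ≠ 0 := ⟨_, rfl⟩
    rw [← hI]
    obtain ⟨k, hk⟩ : ∃ k, I.card = k + 1 := by
      refine Nat.exists_eq_succ_of_ne_zero fun h0 => ?_
      rw [Finset.card_eq_zero] at h0
      obtain ⟨j, hj⟩ := hc0
      have h1 : j ∈ I := by
        rw [hI]
        exact Finset.mem_filter.2 ⟨Finset.mem_univ _, hj⟩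
      rw [h0] at h1
      exact absurd h1 (Finset.notMem_empty j)
    have hkm : k < m + 1 := by
      have h1 := Finset.card_le_univ I
      rw [Fintype.card_fin] at h1
      omega
    obtain ⟨e, he⟩ : ∃ e : Fin (k + 1) ↪o Fin (m + 1), e = I.orderEmbOfFin hk := ⟨_, rfl⟩
    have himg : Finset.univ.image (fun j => e j) = I := by
      rw [he]
      exact Finset.image_orderEmbOfFin_univ I hk
    have heI : ∀ j, c (e j) ≠ 0 := by
      intro j
      have h1 : e j ∈ I := by
        rw [← himg]
        exact Finset.mem_image_of_mem _ (Finset.mem_univ j)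
      rw [hI] at h1
      exact (Finset.mem_filter.1 h1).2
    have hinj : Function.Injective fun j => e j := e.injective
    have h1 := hC₀ ⟨k, hkm⟩ (fun j => e j) L (fun j => x (e j)) (fun j => hx0 _)
      (fun j => c (e j)) heI
      (by
        have h2 : ∑ i ∈ Finset.univ.image (fun j => e j),
            c i • (algebraMap K L (a i) * x i ^ d) = 0 := by
          rw [himg, ← hc]
          refine Finset.sum_subset (Finset.subset_univ I) fun i _ hi => ?_
          have h3 : c i = 0 := by
            by_contra h4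
            apply hi
            rw [hI]
            exact Finset.mem_filter.2 ⟨Finset.mem_univ _, h4⟩
          rw [h3, zero_smul]
        rw [Finset.sum_image fun i _ j _ hij => hinj hij] at h2
        exact h2)
      (by
        intro t
        rw [Fintype.linearIndependent_iff]
        intro g hg j
        obtain ⟨b, hb⟩ : ∃ b : Fin (m + 1) → κ, b = fun i => ∑ j : Fin k,
          if e (t.succAbove j) = i then g j else 0 := ⟨_, rfl⟩
        have hb0 : b = 0 := by
          refine hmin b ?_ ?_ ⟨e t, heI t, ?_⟩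
          · rw [← hg]
            have h2 : ∀ i, b i • (algebraMap K L (a i) * x i ^ d) = ∑ j : Fin k,
                if e (t.succAbove j) = i then g j • (algebraMap K L (a i) * x i ^ d) else 0 := by
              intro i
              rw [hb, Finset.sum_smul]
              refine Finset.sum_congr rfl fun j _ => ?_
              split_ifs
              · rfl
              · rw [zero_smul]
            simp only [h2]
            rw [Finset.sum_comm]
            refine Finset.sum_congr rfl fun j _ => ?_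
            rw [Finset.sum_ite_eq Finset.univ (e (t.succAbove j)), if_pos (Finset.mem_univ _)]
          · intro i hi
            rw [hb]
            refine Finset.sum_eq_zero fun j _ => if_neg fun h0 => ?_
            rw [← h0] at hi
            exact heI _ hi
          · rw [hb]
            refine Finset.sum_eq_zero fun j _ => if_neg fun h0 => ?_
            exact Fin.succAbove_ne t j (hinj h0)
        have h2 := congrFun hb0 (e (t.succAbove j))
        rw [hb, Pi.zero_apply] at h2
        simp only at h2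
        rw [Finset.sum_eq_single j] at h2
        · rwa [if_pos rfl] at h2
        · intro l _ hl
          exact if_neg fun h0 => hl (Fin.succAbove_right_injective (hinj h0))
        · exact fun h0 => absurd (Finset.mem_univ j) h0)
    obtain ⟨h, hh⟩ : ∃ h, h = height κ (fun j => x (e j)) := ⟨_, rfl⟩
    have hne : (fun j => x (e j)) ≠ 0 := fun h0 => hx0 (e 0) (congrFun h0 0)
    have hh0 : 0 ≤ h := by
      rw [hh]
      exact hL.height_nonneg hne
    have h2 := small_le_count (κ := κ) hL hx0 (fun j => e j) B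
    have h3 : subHt κ x I = h := by
      rw [hh, height_comp x fun j => e j, himg]
    rw [← hh, ← hN] at h2
    rw [← hh] at h1
    rw [h3]
    simp only at h1
    obtain ⟨N₁, hN₁⟩ : ∃ N₁, N₁ = (Finset.univ.filter fun j => e j ∉ B).card := ⟨_, rfl⟩
    obtain ⟨M₁, hM₁⟩ : ∃ M₁, M₁ = (Finset.univ.filter fun j => e j ∈ B).card := ⟨_, rfl⟩
    rw [← hN₁, ← hM₁] at h2
    have hN₂ : N₁ ≤ m + 1 - B.card := by
      have h4 : N₁ ≤ Bᶜ.card := by
        rw [hN₁]
        refine Finset.card_le_card_of_injOn (fun j => e j) (fun j hj => ?_)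
          (fun i _ j _ hij => hinj hij)
        rw [Finset.coe_compl]
        exact (Finset.mem_filter.1 (Finset.mem_coe.1 hj)).2
      rwa [Finset.card_compl, Fintype.card_fin] at h4
    have hM₂ : M₁ ≤ B.card := by
      rw [hM₁]
      refine Finset.card_le_card_of_injOn (fun j => e j) (fun j hj => ?_)
        (fun i _ j _ hij => hinj hij)
      exact (Finset.mem_filter.1 (Finset.mem_coe.1 hj)).2
    have h4 : ((k - 1 : ℕ) : ℤ) * ∑ᶠ w : Place κ L, (small w.1 (fun j => x (e j)) : ℤ) ≤
        ((k - 1 : ℕ) : ℤ) * ((N₁ : ℤ) * h + (M₁ : ℤ) * N) :=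
      mul_le_mul_of_nonneg_left h2 (Int.natCast_nonneg _)
    have h5 : ((k - 1 : ℕ) : ℤ) * ((N₁ : ℤ) * h + (M₁ : ℤ) * N) ≤
        (((m - 1) * (m + 1 - B.card) : ℕ) : ℤ) * h + (((m - 1) * B.card : ℕ) : ℤ) * N := by
      have h6 : (((k - 1) * N₁ : ℕ) : ℤ) ≤ (((m - 1) * (m + 1 - B.card) : ℕ) : ℤ) := by
        exact_mod_cast Nat.mul_le_mul (by omega) hN₂
      have h7 : (((k - 1) * M₁ : ℕ) : ℤ) ≤ (((m - 1) * B.card : ℕ) : ℤ) := by
        exact_mod_cast Nat.mul_le_mul (by omega) hM₂
      have h8 := mul_le_mul_of_nonneg_right h6 hh0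
      have h9 := mul_le_mul_of_nonneg_right h7 (Int.natCast_nonneg N)
      have h10 : (((k - 1) * N₁ : ℕ) : ℤ) = ((k - 1 : ℕ) : ℤ) * N₁ := Nat.cast_mul _ _
      have h11 : (((k - 1) * M₁ : ℕ) : ℤ) = ((k - 1 : ℕ) : ℤ) * M₁ := Nat.cast_mul _ _
      rw [h10] at h8
      rw [h11] at h9
      nlinarith
    have h7 : ((k * (k - 1) : ℕ) : ℤ) * (ramDeg κ L K : ℤ) ≤
        ((m * (m - 1) : ℕ) : ℤ) * (ramDeg κ L K : ℤ) := by
      refine mul_le_mul_of_nonneg_right ?_ (Int.natCast_nonneg _)
      have h8 : k * (k - 1) ≤ m * (m - 1) := Nat.mul_le_mul (by omega) (by omega)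
      exact_mod_cast h8
    have h8 : C₀ ⟨k, hkm⟩ (fun j => e j) ≤ C := by
      rw [hC]
      refine le_trans ?_ (Finset.single_le_sum (f := fun k : Fin (m + 1) =>
        ∑ e : Fin ((k : ℕ) + 1) → Fin (m + 1), C₀ k e) (fun _ _ => Nat.zero_le _)
        (Finset.mem_univ ⟨k, hkm⟩))
      exact Finset.single_le_sum (f := fun e => C₀ ⟨k, hkm⟩ e) (fun _ _ => Nat.zero_le _)
        (Finset.mem_univ _)
    have h9 : ((C₀ ⟨k, hkm⟩ (fun j => e j) : ℕ) : ℤ) * Module.finrank K L ≤
        (C : ℤ) * Module.finrank K L :=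
      mul_le_mul_of_nonneg_right (by exact_mod_cast h8) (Int.natCast_nonneg _)
    rw [hM]
    linarith
  -- enlarging the set step by step
  have hstep : ∀ n : ℕ, n ≤ m → ∃ P : Finset (Fin (m + 1)), P.Nonempty ∧ n + 1 ≤ P.card ∧
      ((d : ℤ) - ((m - 1) * (m + 1 - B.card) : ℕ)) * subHt κ x P ≤ ((P.card : ℤ) - 1) * M := by
    intro n
    induction n with
    | zero =>
      intro _
      refine ⟨{0}, ⟨0, Finset.mem_singleton_self _⟩, by simp, ?_⟩
      rw [subHt_singleton hL (hx0 0), Finset.card_singleton]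
      simp
    | succ n ih =>
      intro hn
      obtain ⟨P, hP, hPn, hPM⟩ := ih (by omega)
      by_cases hPu : P = Finset.univ
      · refine ⟨P, hP, ?_, hPM⟩
        rw [hPu, Finset.card_univ, Fintype.card_fin]
        omega
      · obtain ⟨c, hc1, ⟨i, hiP, hci⟩, ⟨i', hi'P, hci'⟩, hmin⟩ := exists_circuit (κ := κ)
          (fun j => algebraMap K L (a j) * x j ^ d) P hx (hsub P hP hPu)
        have h1 := hcirc c hc1 ⟨i, hci⟩ hmin
        obtain ⟨Q, hQ⟩ : ∃ Q : Finset (Fin (m + 1)), Q = Finset.univ.filter fun j => c j ≠ 0 :=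
          ⟨_, rfl⟩
        rw [← hQ] at h1
        have hiQ : i ∈ Q := by
          rw [hQ]
          exact Finset.mem_filter.2 ⟨Finset.mem_univ _, hci⟩
        have hi'Q : i' ∈ Q := by
          rw [hQ]
          exact Finset.mem_filter.2 ⟨Finset.mem_univ _, hci'⟩
        have h2 := subHt_union (κ := κ) hL hx0 hiP hiQ
        have h3 : P.card + 1 ≤ (P ∪ Q).card := by
          refine Finset.card_lt_card ⟨Finset.subset_union_left, fun hcon => ?_⟩
          exact hi'P (hcon (Finset.mem_union_right _ hi'Q))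
        refine ⟨P ∪ Q, ⟨i, Finset.mem_union_left _ hiP⟩, by omega, ?_⟩
        have hD : (0 : ℤ) ≤ (d : ℤ) - ((m - 1) * (m + 1 - B.card) : ℕ) := by
          have : (((m - 1) * (m + 1 - B.card) : ℕ) : ℤ) < d := by exact_mod_cast hd
          linarith
        have h4 := mul_le_mul_of_nonneg_left h2 hD
        have h5 : ((P.card : ℤ)) * M ≤ (((P ∪ Q).card : ℤ) - 1) * M := by
          refine mul_le_mul_of_nonneg_right ?_ hM0
          have : ((P.card + 1 : ℕ) : ℤ) ≤ ((P ∪ Q).card : ℤ) := by exact_mod_cast h3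
          push_cast at this
          linarith
        linarith
  obtain ⟨P, hP, hPn, hPM⟩ := hstep m le_rfl
  have hPu : P = Finset.univ := by
    refine Finset.eq_univ_of_card P ?_
    rw [Fintype.card_fin]
    have h1 := Finset.card_le_univ P
    rw [Fintype.card_fin] at h1
    omega
  rw [hPu, subHt_univ, Finset.card_univ, Fintype.card_fin] at hPM
  push_cast at hPM
  rw [hM] at hPM
  rw [hM]
  push_cast at hPM ⊢
  linarith

end Pool.Agent.Lib.MP_44a246_ntFM
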